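import Mathlib

set_option autoImplicit false

namespace Pool.Agent.Lib.Amalgam

open Function Subgroup

lemma fi_comap {G H : Type} [Group G] [Group H] (K : Subgroup H) [K.FiniteIndex] (f : G →* H) :
    (K.comap f).FiniteIndex :=
  ⟨by rw [index_comap]; exact (instFiniteIndex_subgroupOf K f.range).index_ne_zero⟩

lemma fi_map_subtype {G : Type} [Group G] (K : Subgroup G) [K.FiniteIndex] (L : Subgroup K)
    [L.FiniteIndex] : (L.map K.subtype).FiniteIndex :=
  ⟨by rw [index_map_subtype]; exact mul_ne_zero FiniteIndex.index_ne_zero FiniteIndex.index_ne_zero⟩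

lemma one_factor {G₀ G : Type} [Group G₀] [Group G] (φ : G₀ →* G) (c₀ : G₀)
    (hc₀ : ∀ k : ℤ, c₀ ^ k = 1 → k = 0) [(zpowers c₀).FiniteIndex] (K : Subgroup G)
    [K.FiniteIndex] (ρ : K →* G₀) (hK : ∀ h, φ h ∈ K) (hρ : ∀ h, ρ ⟨φ h, hK h⟩ = h)
    (U : Subgroup G) [U.FiniteIndex] :
    ∃ a : ℕ, a ≠ 0 ∧ ∀ m : ℕ, m ≠ 0 → ∃ V : Subgroup G, V.Normal ∧ V.FiniteIndex ∧ V ≤ U ∧
      (∀ h, φ h ∈ V ↔ h ∈ zpowers (c₀ ^ (a * m))) ∧
      ∃ l : V →* Multiplicative ℤ, ∀ hc, l ⟨φ (c₀ ^ (a * m)), hc⟩ ≠ 1 := by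
  have hinj : ∀ j k : ℤ, c₀ ^ j = c₀ ^ k → j = k := by
    intro j k h
    have := hc₀ (j - k) (by rw [zpow_sub, h, mul_inv_cancel])
    omega
  have := fi_comap (zpowers c₀) ρ
  have := fi_map_subtype K ((zpowers c₀).comap ρ)
  let N : Subgroup G := (U ⊓ ((zpowers c₀).comap ρ).map K.subtype).normalCore
  have hNn : N.Normal := normalCore_normal _
  have hNle : N ≤ U ⊓ ((zpowers c₀).comap ρ).map K.subtype := normalCore_le _
  have hNK : ∀ x ∈ N, x ∈ K := fun x hx => by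
    obtain ⟨y, -, rfl⟩ := (hNle hx).2
    exact y.2
  have hlog : ∀ x : N, ∃ k : ℤ, c₀ ^ k = ρ ⟨x, hNK x x.2⟩ := fun x => by
    obtain ⟨y, hy, e⟩ := (hNle x.2).2
    obtain ⟨k, hk⟩ := mem_zpowers_iff.mp (mem_comap.mp hy)
    exact ⟨k, by rw [hk]; congr 1; exact Subtype.ext e⟩
  choose lg hlg using hlog
  let lam : N →* Multiplicative ℤ := MonoidHom.mk' (fun x => Multiplicative.ofAdd (lg x)) (by
    intro x y
    rw [← ofAdd_add]
    congr 1
    apply hinj
    rw [zpow_add, hlg, hlg, hlg, ← map_mul]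
    rfl)
  have hlam : ∀ x, lam x = Multiplicative.ofAdd (lg x) := fun _ => rfl
  have hlgc : ∀ (k : ℤ) (h : φ (c₀ ^ k) ∈ N), lg ⟨_, h⟩ = k := by
    intro k h
    apply hinj
    rw [hlg]
    exact hρ _
  have hle : N.comap φ ≤ zpowers c₀ := by
    intro h hh
    obtain ⟨y, hy, e⟩ := (hNle hh).2
    have : y = ⟨φ h, hK h⟩ := Subtype.ext e
    rw [this] at hy
    have := mem_comap.mp hy
    rwa [hρ] at this
  obtain ⟨a, ha⟩ := (le_zpowers_iff _ _).mp hle
  have ha0 : a ≠ 0 := by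
    rintro rfl
    obtain ⟨n, hn, -, hn'⟩ := N.exists_pow_mem_of_index_ne_zero FiniteIndex.index_ne_zero (φ c₀)
    have h1 : c₀ ^ n ∈ N.comap φ := by rw [mem_comap, map_pow]; exact hn'
    rw [ha] at h1
    simp only [pow_zero, zpowers_one_eq_bot, mem_bot] at h1
    have := hc₀ n (by rw [zpow_natCast]; exact h1)
    omega
  have hca : φ (c₀ ^ a) ∈ N := by
    rw [← mem_comap, ha]; exact mem_zpowers _
  let val : G → ℤ := fun g => lg ⟨g * φ (c₀ ^ a) * g⁻¹, hNn.conj_mem _ hca g⟩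
  have val1 : val 1 = a := by
    rw [← hlgc a (by rw [zpow_natCast]; exact hca)]
    simp [val]
  obtain ⟨d, hd⟩ := Int.subgroup_cyclic (AddSubgroup.closure (Set.range val))
  have hdvd : ∀ g, d ∣ val g := by
    intro g
    rw [← Int.mem_zmultiples_iff, AddSubgroup.zmultiples_eq_closure, ← hd]
    exact AddSubgroup.subset_closure ⟨g, rfl⟩
  have hd0 : d ≠ 0 := by
    rintro rfl
    have := hdvd 1
    rw [val1] at this
    simp at this
    exact ha0 this
  have hgcd : ∀ k n : ℤ, (∀ g, n ∣ k * val g) → n ∣ k * d := by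
    intro k n h
    have h1 : d ∈ AddSubgroup.closure (Set.range val) := by
      rw [hd]; exact AddSubgroup.subset_closure rfl
    have : ∀ z ∈ AddSubgroup.closure (Set.range val), n ∣ k * z := by
      intro z hz
      induction hz using AddSubgroup.closure_induction with
      | mem x hx => obtain ⟨g, rfl⟩ := hx; exact h g
      | zero => simp
      | add x y _ _ hx hy => rw [mul_add]; exact dvd_add hx hy
      | neg x _ hx => rw [mul_neg]; exact (dvd_neg).mpr hx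
    exact this d h1
  refine ⟨a, ha0, fun m hm => ?_⟩
  let Z : Subgroup (Multiplicative ℤ) := AddSubgroup.toSubgroup (AddSubgroup.zmultiples (d * m))
  have hZ : Z.FiniteIndex := by
    rw [AddSubgroup.finiteIndex_toSubgroup_iff]
    exact ⟨by rw [Int.index_zmultiples]; simp [hd0, hm]⟩
  have := fi_comap Z lam
  have := fi_map_subtype N (Z.comap lam)
  let V : Subgroup G := ((Z.comap lam).map N.subtype).normalCore
  have hV : ∀ x, x ∈ V ↔ ∃ hx : x ∈ N, ∀ g, d * m ∣ lg ⟨g * x * g⁻¹, hNn.conj_mem _ hx g⟩ := by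
    intro x
    constructor
    · intro h
      have hx : x ∈ N := by
        obtain ⟨y, -, e⟩ := normalCore_le _ h
        rw [← e]; exact y.2
      refine ⟨hx, fun g => ?_⟩
      obtain ⟨y, hy, e⟩ := h g
      have : y = ⟨g * x * g⁻¹, hNn.conj_mem _ hx g⟩ := Subtype.ext e
      rw [this] at hy
      exact Int.mem_zmultiples_iff.mp hy
    · rintro ⟨hx, h⟩ g
      exact ⟨⟨g * x * g⁻¹, hNn.conj_mem _ hx g⟩, Int.mem_zmultiples_iff.mpr (h g), rfl⟩
  have hVN : V ≤ N := fun x hx => ((hV x).mp hx).1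
  have hpow : ∀ (k : ℤ) (g : G) (h : g * φ ((c₀ ^ a) ^ k) * g⁻¹ ∈ N), lg ⟨_, h⟩ = k * val g := by
    intro k g h
    have e : (⟨_, h⟩ : N) = (⟨g * φ (c₀ ^ a) * g⁻¹, hNn.conj_mem _ hca g⟩ : N) ^ k := by
      apply Subtype.ext
      simp only [map_zpow, SubgroupClass.coe_zpow, conj_zpow]
    have h1 : lam ⟨_, h⟩ = (lam ⟨g * φ (c₀ ^ a) * g⁻¹, hNn.conj_mem _ hca g⟩) ^ k := by
      rw [e, map_zpow]
    have h2 := congrArg Multiplicative.toAdd h1
    rw [toAdd_zpow, smul_eq_mul] at h2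
    exact h2
  have hVc : ∀ h, φ h ∈ V ↔ h ∈ zpowers (c₀ ^ (a * m)) := by
    intro h
    rw [hV]
    constructor
    · rintro ⟨hx, h2⟩
      have h3 : h ∈ N.comap φ := hx
      rw [ha] at h3
      obtain ⟨k, rfl⟩ := mem_zpowers_iff.mp h3
      have h4 := hgcd k (d * m) (fun g => by rw [← hpow k g]; exact h2 g)
      rw [mul_comm k d] at h4
      obtain ⟨j, rfl⟩ := (mul_dvd_mul_iff_left hd0).mp h4
      refine mem_zpowers_iff.mpr ⟨j, ?_⟩
      rw [pow_mul, zpow_mul, zpow_natCast]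
    · intro h2
      obtain ⟨j, rfl⟩ := mem_zpowers_iff.mp h2
      have e : (c₀ ^ (a * m)) ^ j = (c₀ ^ a) ^ ((m : ℤ) * j) := by
        rw [pow_mul, zpow_mul, zpow_natCast]
      rw [e]
      refine ⟨by rw [map_zpow]; exact N.zpow_mem hca _, fun g => ?_⟩
      rw [hpow]
      obtain ⟨z, hz⟩ := hdvd g
      exact ⟨j * z, by rw [hz]; ring⟩
  refine ⟨V, normalCore_normal _, inferInstance, fun x hx => (hNle (hVN hx)).1, hVc,
    lam.comp (inclusion hVN), fun hc h => ?_⟩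
  have h1 : lg ⟨φ (c₀ ^ (a * m)), hVN hc⟩ = 0 := congrArg Multiplicative.toAdd h
  have h2 := hlgc ((a * m : ℕ) : ℤ) (by rw [zpow_natCast]; exact hVN hc)
  simp only [zpow_natCast] at h2
  rw [h1] at h2
  exact mul_ne_zero ha0 hm (by exact_mod_cast h2.symm)

theorem exists_compatible {ι : Type} [Finite ι] {G₀ : Type} [Group G₀] {G : ι → Type}
    [∀ i, Group (G i)] (φ : ∀ i, G₀ →* G i) [Infinite G₀] (C₁ : Subgroup G₀) [C₁.FiniteIndex]
    [IsCyclic C₁] (K : ∀ i, Subgroup (G i)) [∀ i, (K i).FiniteIndex] (ρ : ∀ i, K i →* G₀)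
    (hK : ∀ i h, φ i h ∈ K i) (hρ : ∀ i h, ρ i ⟨φ i h, hK i h⟩ = h)
    (U : ∀ i, Subgroup (G i)) [∀ i, (U i).FiniteIndex] :
    ∃ (c : G₀) (V : ∀ i, Subgroup (G i)), (∀ k : ℤ, c ^ k = 1 → k = 0) ∧
      (zpowers c).FiniteIndex ∧ (∀ i, (V i).Normal) ∧
      (∀ i, (V i).FiniteIndex) ∧ (∀ i, V i ≤ U i) ∧ (∀ i h, φ i h ∈ V i ↔ h ∈ zpowers c) ∧
      ∀ i, ∃ l : V i →* Multiplicative ℤ, ∀ hc, l ⟨φ i c, hc⟩ ≠ 1 := by
  classical
  obtain ⟨c₀, rfl⟩ := (Subgroup.isCyclic_iff_exists_zpowers_eq_top C₁).mp inferInstance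
  have hc₀ : ∀ k : ℤ, c₀ ^ k = 1 → k = 0 := by
    intro k hk
    by_contra h0
    have h1 : IsOfFinOrder c₀ := isOfFinOrder_iff_zpow_eq_one.mpr ⟨k, h0, hk⟩
    have h2 : Finite (zpowers c₀) := (finite_zpowers.mpr h1).to_subtype
    have : Finite G₀ := (finite_iff_finite_and_finiteIndex _).mpr ⟨h2, inferInstance⟩
    exact not_finite G₀
  have := Fintype.ofFinite ι
  choose a ha0 ha using fun i => one_factor (φ i) c₀ hc₀ (K i) (ρ i) (hK i) (hρ i) (U i)
  have hm : ∀ i, ∏ j ∈ Finset.univ.erase i, a j ≠ 0 := fun i =>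
    Finset.prod_ne_zero_iff.mpr (fun j _ => ha0 j)
  choose V h1 h2 h3 h4 h5 using fun i => ha i _ (hm i)
  have e : ∀ i, a i * ∏ j ∈ Finset.univ.erase i, a j = ∏ j, a j := fun i =>
    Finset.mul_prod_erase _ _ (Finset.mem_univ i)
  have hA : ∏ j, a j ≠ 0 := Finset.prod_ne_zero_iff.mpr (fun j _ => ha0 j)
  simp only [e] at h4 h5
  refine ⟨c₀ ^ ∏ j, a j, V, ?_, ?_, h1, h2, h3, h4, h5⟩
  · intro k hk
    rw [← zpow_natCast, ← zpow_mul] at hk
    exact (mul_eq_zero.mp (hc₀ _ hk)).resolve_left (by exact_mod_cast hA)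
  · let Z : Subgroup (Multiplicative ℤ) :=
      AddSubgroup.toSubgroup (AddSubgroup.zmultiples ((∏ j, a j : ℕ) : ℤ))
    have hZ : Z.FiniteIndex := by
      rw [AddSubgroup.finiteIndex_toSubgroup_iff]
      exact ⟨by rw [Int.index_zmultiples, Int.natAbs_natCast]; exact hA⟩
    have hs : Surjective (zpowersHom G₀ c₀).rangeRestrict := MonoidHom.rangeRestrict_surjective _
    have h6 : (Z.map (zpowersHom G₀ c₀).rangeRestrict).FiniteIndex :=
      ⟨ne_zero_of_dvd_ne_zero hZ.index_ne_zero (Z.index_map_dvd hs)⟩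
    have h7 : (zpowersHom G₀ c₀).range.FiniteIndex := by
      rw [range_zpowersHom]; infer_instance
    have h8 := fi_map_subtype _ (Z.map (zpowersHom G₀ c₀).rangeRestrict)
    refine finiteIndex_of_le (H := (Z.map (zpowersHom G₀ c₀).rangeRestrict).map
      (zpowersHom G₀ c₀).range.subtype) ?_
    rintro _ ⟨_, ⟨z, hz, rfl⟩, rfl⟩
    obtain ⟨j, hj⟩ := Int.mem_zmultiples_iff.mp hz
    refine mem_zpowers_iff.mpr ⟨j, ?_⟩
    change _ = c₀ ^ (Multiplicative.toAdd z)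
    rw [← zpow_natCast, ← zpow_mul, ← hj]
    rfl

/-- a homomorphism to the integers that is nonzero on finitely many given elements -/
lemma exists_generic {V : Type} [Group V] (S : Set V) (hS : S.Finite)
    (h : ∀ s ∈ S, ∃ l : V →* Multiplicative ℤ, l s ≠ 1) :
    ∃ l : V →* Multiplicative ℤ, ∀ s ∈ S, l s ≠ 1 := by
  induction S, hS using Set.Finite.induction_on with
  | empty => exact ⟨1, by simp⟩
  | @insert s S _ hS ih =>
    obtain ⟨l, hl⟩ := ih (fun x hx => h x (Or.inr hx))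
    obtain ⟨l', hl'⟩ := h s (Or.inl rfl)
    obtain ⟨N, hN⟩ := ((hS.insert s).image (fun x => (l' x).toAdd.natAbs)).bddAbove
    refine ⟨l ^ (N + 1) * l', fun x hx hh => ?_⟩
    have h1 : ((N + 1 : ℕ) : ℤ) * (l x).toAdd + (l' x).toAdd = 0 := by
      have := congrArg Multiplicative.toAdd hh
      simpa using this
    have h2 : (l' x).toAdd.natAbs ≤ N := hN ⟨x, hx, rfl⟩
    by_cases h3 : (l x).toAdd = 0
    · rcases hx with rfl | hx
      · rw [h3] at h1
        exact hl' (Multiplicative.toAdd.injective (by simpa using h1))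
      · exact hl x hx (Multiplicative.toAdd.injective h3)
    · have h4 : (l' x).toAdd.natAbs = (N + 1) * (l x).toAdd.natAbs := by
        rw [show (l' x).toAdd = -(((N + 1 : ℕ) : ℤ) * (l x).toAdd) by omega, Int.natAbs_neg,
          Int.natAbs_mul, Int.natAbs_natCast]
      have h5 : 1 ≤ (l x).toAdd.natAbs := by omega
      nlinarith

/-- a homomorphism to the integers that is nonzero on finitely many conjugates of `c` -/
lemma exists_generic_conj {G T : Type} [Group G] [Finite T] (V : Subgroup G) [hn : V.Normal]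
    (c : G) (hc : c ∈ V) (l : V →* Multiplicative ℤ) (hl : l ⟨c, hc⟩ ≠ 1) (σ : T → G) :
    ∃ l' : V →* Multiplicative ℤ, ∀ t (h : (σ t)⁻¹ * c * σ t ∈ V), l' ⟨_, h⟩ ≠ 1 := by
  have hm : ∀ t, (σ t)⁻¹ * c * σ t ∈ V := fun t => by simpa using hn.conj_mem _ hc (σ t)⁻¹
  obtain ⟨l', hl'⟩ := exists_generic (Set.range (fun t => (⟨_, hm t⟩ : V))) (Set.finite_range _) (by
    rintro _ ⟨t, rfl⟩
    refine ⟨l.comp (MulAut.conjNormal (σ t)).toMonoidHom, ?_⟩
    convert hl using 1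
    simp only [MulEquiv.toMonoidHom_eq_coe, MonoidHom.comp_apply, MonoidHom.coe_coe]
    congr 1
    apply Subtype.ext
    simp [mul_assoc])
  exact ⟨l', fun t _ => hl' _ ⟨t, rfl⟩⟩

end Pool.Agent.Lib.Amalgam
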