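import Mathlib

set_option autoImplicit false

namespace Pool.Agent.Lib.Amalgam

open Monoid Function

/-- The permutational wreath product of `B` with the full symmetric group of `Ω`. -/
@[ext] structure Wr (Ω B : Type) where
  f : Ω → B
  p : Equiv.Perm Ω

namespace Wr

variable {Ω B : Type} [Group B]

instance : Mul (Wr Ω B) := ⟨fun a b => ⟨fun ω => a.f (b.p ω) * b.f ω, a.p * b.p⟩⟩
instance : One (Wr Ω B) := ⟨⟨fun _ => 1, 1⟩⟩
instance : Inv (Wr Ω B) := ⟨fun a => ⟨fun ω => (a.f (a.p⁻¹ ω))⁻¹, a.p⁻¹⟩⟩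

@[simp] lemma mul_f (a b : Wr Ω B) (ω : Ω) : (a * b).f ω = a.f (b.p ω) * b.f ω := rfl
@[simp] lemma mul_p (a b : Wr Ω B) : (a * b).p = a.p * b.p := rfl
@[simp] lemma one_f (ω : Ω) : (1 : Wr Ω B).f ω = 1 := rfl
@[simp] lemma one_p : (1 : Wr Ω B).p = 1 := rfl
@[simp] lemma inv_f (a : Wr Ω B) (ω : Ω) : a⁻¹.f ω = (a.f (a.p⁻¹ ω))⁻¹ := rfl
@[simp] lemma inv_p (a : Wr Ω B) : a⁻¹.p = a.p⁻¹ := rfl

instance : Group (Wr Ω B) where
  mul_assoc a b c := by ext <;> simp [mul_assoc]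
  one_mul a := by ext <;> simp
  mul_one a := by ext <;> simp
  inv_mul_cancel a := by ext <;> simp

/-- projection to the permutation part -/
def perm : Wr Ω B →* Equiv.Perm Ω := MonoidHom.mk' (fun a => a.p) (fun _ _ => rfl)

@[simp] lemma perm_apply (a : Wr Ω B) : perm a = a.p := rfl

/-- the base group -/
def inl : (Ω → B) →* Wr Ω B := MonoidHom.mk' (fun f => ⟨f, 1⟩) (fun _ _ => by ext <;> simp)

@[simp] lemma inl_f (f : Ω → B) : (inl f).f = f := rfl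
@[simp] lemma inl_p (f : Ω → B) : (inl f).p = 1 := rfl

/-- a homomorphism from an action together with a cocycle -/
def ofCocycle {G : Type} [Group G] (P : G → Ω → Ω) (F : G → Ω → B) (h1 : ∀ ω, P 1 ω = ω)
    (hP : ∀ g h ω, P (g * h) ω = P g (P h ω))
    (hF : ∀ g h ω, F (g * h) ω = F g (P h ω) * F h ω) : G →* Wr Ω B :=
  MonoidHom.mk' (fun g => ⟨F g, ⟨P g, P g⁻¹, fun ω => by rw [← hP, inv_mul_cancel, h1],
    fun ω => by rw [← hP, mul_inv_cancel, h1]⟩⟩) (fun g h => by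
      ext ω
      · exact hF g h ω
      · exact hP g h ω)

@[simp] lemma ofCocycle_f {G : Type} [Group G] (P : G → Ω → Ω) (F : G → Ω → B) (h1 hP hF)
    (g : G) (ω : Ω) : (ofCocycle P F h1 hP hF g).f ω = F g ω := rfl

@[simp] lemma ofCocycle_p {G : Type} [Group G] (P : G → Ω → Ω) (F : G → Ω → B) (h1 hP hF)
    (g : G) (ω : Ω) : (ofCocycle P F h1 hP hF g).p ω = P g ω := rfl

end Wr

lemma out_mem {G₀ : Type} [Group G₀] (C : Subgroup G₀) (h : G₀) (r : G₀ ⧸ C) :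
    (h • r).out⁻¹ * h * r.out ∈ C := by
  rw [mul_assoc, ← QuotientGroup.eq, QuotientGroup.out_eq', ← smul_eq_mul,
    ← MulAction.Quotient.smul_mk, QuotientGroup.out_eq']

lemma exists_section {G₀ G : Type} [Group G₀] [Group G] (φ : G₀ →* G) (C : Subgroup G₀)
    (V : Subgroup G) [V.Normal] [V.FiniteIndex] (hV : ∀ h, φ h ∈ V ↔ h ∈ C) :
    ∃ (T : Type) (_ : Finite T) (σ : T → G),
      ∀ g : G, ∃! p : (G₀ ⧸ C) × T, (φ p.1.out * σ p.2)⁻¹ * g ∈ V := by
  let s : Setoid (G ⧸ V) :=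
    { r := fun x y => ∃ h : G₀, φ h • x = y
      iseqv := ⟨fun x => ⟨1, by simp⟩, fun ⟨h, hh⟩ => ⟨h⁻¹, by rw [← hh]; simp⟩,
        fun ⟨h, hh⟩ ⟨k, hk⟩ => ⟨k * h, by rw [map_mul, mul_smul, hh, hk]⟩⟩ }
  refine ⟨Quotient s, inferInstance, fun t => t.out.out, fun g => ?_⟩
  have key : ∀ (h : G₀) (t : Quotient s),
      (φ h * t.out.out)⁻¹ * g ∈ V ↔ φ h • t.out = (g : G ⧸ V) := by
    intro h t
    rw [← QuotientGroup.eq, ← smul_eq_mul, ← MulAction.Quotient.smul_mk, QuotientGroup.out_eq']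
  have stab : ∀ (h k : G₀) (x : G ⧸ V), φ h • x = φ k • x ↔ (h : G₀ ⧸ C) = k := by
    intro h k x
    induction x using QuotientGroup.induction_on with
    | H x =>
      rw [MulAction.Quotient.smul_mk, MulAction.Quotient.smul_mk, QuotientGroup.eq,
        QuotientGroup.eq, ← hV, smul_eq_mul, smul_eq_mul, map_mul, map_inv]
      have : (φ h * x)⁻¹ * (φ k * x) = x⁻¹ * ((φ h)⁻¹ * φ k) * x⁻¹⁻¹ := by group
      rw [this]
      exact ⟨fun hh => by
        have := (inferInstance : V.Normal).conj_mem _ hh x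
        simpa [mul_assoc] using this, fun hh => (inferInstance : V.Normal).conj_mem _ hh _⟩
  obtain ⟨h, hh⟩ : ∃ h : G₀, φ h • (Quotient.mk s (g : G ⧸ V)).out = (g : G ⧸ V) :=
    Quotient.exact (Quotient.out_eq (Quotient.mk s (g : G ⧸ V)))
  refine ⟨((h : G₀ ⧸ C), Quotient.mk s (g : G ⧸ V)), ?_, ?_⟩
  · simp only
    rw [key, ← hh]
    rw [hh, (stab _ h _).mpr (QuotientGroup.out_eq' _), hh]
  · rintro ⟨r, t⟩ hp
    simp only at hp
    rw [key] at hp
    have ht : t = Quotient.mk s (g : G ⧸ V) := by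
      rw [← Quotient.out_eq t]
      exact Quotient.sound ⟨_, hp⟩
    subst ht
    rw [← hh, ] at hp
    rw [hh] at hp
    have := (stab r.out h _).mp (hp.trans hh.symm)
    rw [QuotientGroup.out_eq'] at this
    rw [this]

theorem exists_hom {ι : Type} [DecidableEq ι] {G₀ : Type} [Group G₀] {G : ι → Type}
    [∀ i, Group (G i)] (φ : ∀ i, G₀ →* G i) (C : Subgroup G₀) (V : ∀ i, Subgroup (G i))
    [hn : ∀ i, (V i).Normal] (hV : ∀ i h, φ i h ∈ V i ↔ h ∈ C) (T : ι → Type)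
    (σ : ∀ i, T i → G i)
    (hσ : ∀ i (g : G i), ∃! p : (G₀ ⧸ C) × T i, (φ i p.1.out * σ i p.2)⁻¹ * g ∈ V i)
    {B : Type} [Group B] (J : ∀ i, (∀ j, T j) → V i →* B)
    (hJ : ∀ i τ t, J i (update τ i t) = J i τ) (b : ι → (∀ j, T j) → B)
    (w : (∀ j, T j) → C →* B)
    (hw : ∀ i τ (x : C) (hx : (σ i (τ i))⁻¹ * φ i x * σ i (τ i) ∈ V i),
      (b i τ)⁻¹ * J i τ ⟨_, hx⟩ * b i τ = w τ x) :
    ∃ Θ : PushoutI φ →* Wr ((G₀ ⧸ C) × ∀ j, T j) B,
      (∀ i g ω, (Θ (PushoutI.of i g)).p ω = ω ↔ g ∈ V i) ∧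
      (∀ i g (ω : (G₀ ⧸ C) × ∀ j, T j)
        (hg : (φ i ω.1.out * σ i (ω.2 i))⁻¹ * g * (φ i ω.1.out * σ i (ω.2 i)) ∈ V i),
        (Θ (PushoutI.of i g)).f ω = (b i ω.2)⁻¹ * J i ω.2 ⟨_, hg⟩ * b i ω.2) ∧
      (∀ h ω, (Θ (PushoutI.base φ h)).p ω = (h • ω.1, ω.2)) ∧
      (∀ h ω, (Θ (PushoutI.base φ h)).f ω = w ω.2 ⟨_, out_mem C h ω.1⟩) := by
  let s : ∀ i, (G₀ ⧸ C) × T i → G i := fun i p => φ i p.1.out * σ i p.2
  have hex : ∀ i (g : G i) (p : (G₀ ⧸ C) × T i), ∃ q, (s i q)⁻¹ * g * s i p ∈ V i := by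
    intro i g p
    obtain ⟨q, hq, -⟩ := hσ i (g * s i p)
    exact ⟨q, by rw [mul_assoc]; exact hq⟩
  choose nx hnx using hex
  have huniq : ∀ i (g : G i) p q, (s i q)⁻¹ * g * s i p ∈ V i → nx i g p = q := by
    intro i g p q hq
    refine (hσ i (g * s i p)).unique ?_ ?_
    · have := hnx i g p
      rwa [mul_assoc] at this
    · rwa [mul_assoc] at hq
  have nx_one : ∀ i p, nx i 1 p = p := fun i p => huniq i 1 p p (by simp)
  have nx_mul : ∀ i g h p, nx i (g * h) p = nx i g (nx i h p) := by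
    intro i g h p
    apply huniq
    have := (V i).mul_mem (hnx i g (nx i h p)) (hnx i h p)
    convert this using 1
    group
  have nx_base : ∀ i h (p : (G₀ ⧸ C) × T i), nx i (φ i h) p = (h • p.1, p.2) := by
    intro i h p
    apply huniq
    have h1 := (hV i _).mpr (out_mem C h p.1)
    have h2 := (hn i).conj_mem _ h1 (σ i p.2)⁻¹
    convert h2 using 1
    simp only [s, map_mul, map_inv]
    group
  let P : ∀ i, G i → ((G₀ ⧸ C) × ∀ j, T j) → ((G₀ ⧸ C) × ∀ j, T j) := fun i g ω =>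
    ((nx i g (ω.1, ω.2 i)).1, update ω.2 i (nx i g (ω.1, ω.2 i)).2)
  let F : ∀ i, G i → ((G₀ ⧸ C) × ∀ j, T j) → B := fun i g ω =>
    (b i (P i g ω).2)⁻¹ * J i ω.2 ⟨_, hnx i g (ω.1, ω.2 i)⟩ * b i ω.2
  have P1 : ∀ i ω, P i 1 ω = ω := by
    intro i ω
    simp [P, nx_one]
  have Pmul : ∀ i g h ω, P i (g * h) ω = P i g (P i h ω) := by
    intro i g h ω
    simp [P, nx_mul]
  have Fmul : ∀ i g h ω, F i (g * h) ω = F i g (P i h ω) * F i h ω := by
    intro i g h ω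
    have e1 : J i (P i h ω).2 = J i ω.2 := hJ i _ _
    simp only [F, Pmul, e1]
    have e2 : (⟨_, hnx i (g * h) (ω.1, ω.2 i)⟩ : V i) =
        ⟨_, hnx i g ((P i h ω).1, (P i h ω).2 i)⟩ * ⟨_, hnx i h (ω.1, ω.2 i)⟩ := by
      apply Subtype.ext
      simp only [P, update_self, Prod.mk.eta, nx_mul, Subgroup.coe_mul]
      group
    rw [e2, map_mul]
    group
  let k : G₀ →* Wr ((G₀ ⧸ C) × ∀ j, T j) B := Wr.ofCocycle (fun h ω => (h • ω.1, ω.2))
    (fun h ω => w ω.2 ⟨_, out_mem C h ω.1⟩) (by simp) (by intros; simp [mul_smul]) (by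
      intro g h ω
      rw [← map_mul]
      congr 1
      apply Subtype.ext
      simp only [mul_smul, Subgroup.coe_mul]
      group)
  have Pbase : ∀ i h ω, P i (φ i h) ω = (h • ω.1, ω.2) := by
    intro i h ω
    simp [P, nx_base]
  have hcomp : ∀ i, (Wr.ofCocycle (P i) (F i) (P1 i) (Pmul i) (Fmul i)).comp (φ i) = k := by
    intro i
    ext h ω : 3
    · simp only [MonoidHom.comp_apply, Wr.ofCocycle_f, k, F, Pbase]
      rw [← hw i ω.2 ⟨_, out_mem C h ω.1⟩ (by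
        have h1 := (hV i _).mpr (out_mem C h ω.1)
        simpa using (hn i).conj_mem _ h1 (σ i (ω.2 i))⁻¹)]
      congr 3
      apply Subtype.ext
      simp only [nx_base, s, map_mul, map_inv]
      group
    · simp only [MonoidHom.comp_apply, Wr.ofCocycle_p, k, Pbase]
  refine ⟨PushoutI.lift _ k hcomp, ?_, ?_, ?_, ?_⟩
  · intro i g ω
    rw [PushoutI.lift_of, Wr.ofCocycle_p]
    constructor
    · intro h
      have h1 : nx i g (ω.1, ω.2 i) = (ω.1, ω.2 i) := by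
        have a1 := congrArg Prod.fst h
        have a2 := congrFun (congrArg Prod.snd h) i
        simp only [P, update_self] at a1 a2
        exact Prod.ext a1 a2
      have h2 := hnx i g (ω.1, ω.2 i)
      rw [h1] at h2
      simpa [mul_assoc] using (hn i).conj_mem _ h2 (s i (ω.1, ω.2 i))
    · intro hg
      have h1 : nx i g (ω.1, ω.2 i) = (ω.1, ω.2 i) :=
        huniq _ _ _ _ (by simpa using (hn i).conj_mem _ hg (s i (ω.1, ω.2 i))⁻¹)
      simp [P, h1]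
  · intro i g ω hg
    rw [PushoutI.lift_of, Wr.ofCocycle_f]
    have h1 : nx i g (ω.1, ω.2 i) = (ω.1, ω.2 i) := huniq _ _ _ _ hg
    simp only [F, P, h1, update_eq_self]
    rfl
  · intro h ω
    rw [PushoutI.lift_base]
    rfl
  · intro h ω
    rw [PushoutI.lift_base]
    rfl

end Pool.Agent.Lib.Amalgam
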