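import Mathlib

set_option autoImplicit false

namespace Pool.Agent.Lib.Amalgam

open Function

lemma fg_map {G H : Type} [Group G] [Group H] {K : Subgroup G} (hK : K.FG) (f : G →* H) :
    (K.map f).FG := by
  obtain ⟨S, hS, hf⟩ := (Subgroup.fg_iff _).mp hK
  exact (Subgroup.fg_iff _).mpr ⟨f '' S, by rw [← hS, MonoidHom.map_closure], hf.image f⟩

lemma fg_of_map {G H : Type} [Group G] [Group H] {K : Subgroup G} {f : G →* H}
    (hf : Injective f) (hK : (K.map f).FG) : K.FG := by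
  rw [← Group.fg_iff_subgroup_fg] at *
  exact Group.fg_of_surjective (f := (K.equivMapOfInjective f hf).symm.toMonoidHom)
    (MulEquiv.surjective _)

/-- A Schreier type lemma. -/
theorem fg_stabilizer {G O κ : Type} [Group G] [MulAction G O] [Finite κ] [Nonempty κ]
    (H : κ → Subgroup G) (H₀ : Subgroup G) (hle : ∀ k, H₀ ≤ H k)
    (hgen : ∀ p : G → Prop, (∀ k, ∀ y ∈ H k, p y) → (∀ x y, p x → p y → p (x * y)) → ∀ g, p g)
    (R : Set O) (hR : R.Finite) (hcov : ∀ o, ∃ h ∈ H₀, ∃ r ∈ R, h • r = o)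
    (hfg : ∀ k (o : O), (H k ⊓ MulAction.stabilizer G o).FG) (o₀ : O) :
    (MulAction.stabilizer G o₀).FG := by
  classical
  let R' : Set O := {r | (r ∈ R ∨ r = o₀) ∧ ∃ g : G, g • o₀ = r}
  have hR' : R'.Finite := (hR.insert o₀).subset (fun r hr => by
    rcases hr.1 with h | h
    · exact Or.inr h
    · exact Or.inl h)
  have : Finite R' := hR'
  have hex : ∀ r : R', ∃ g : G, g • o₀ = r ∧ (r.1 = o₀ → g = 1) := by
    intro r
    by_cases h : r.1 = o₀
    · exact ⟨1, by simp [h], fun _ => rfl⟩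
    · obtain ⟨g, hg⟩ := r.2.2
      exact ⟨g, hg, fun h' => absurd h' h⟩
  choose γ hγ hγ1 using hex
  have hL : ∀ (k : κ) (r r' : R'), ∃ L : Subgroup G, L.FG ∧ L ≤ MulAction.stabilizer G o₀ ∧
      ∀ y ∈ H k, y • r.1 = r'.1 → (γ r')⁻¹ * y * γ r ∈ L := by
    intro k r r'
    by_cases h : ∃ x ∈ H k, x • r.1 = r'.1
    · obtain ⟨x, hx, hxr⟩ := h
      refine ⟨Subgroup.closure {(γ r')⁻¹ * x * γ r} ⊔
        (H k ⊓ MulAction.stabilizer G r.1).map (MulAut.conj (γ r)⁻¹).toMonoidHom, ?_, ?_, ?_⟩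
      · exact Subgroup.FG.sup ((Subgroup.fg_iff _).mpr ⟨_, rfl, Set.finite_singleton _⟩)
          (fg_map (hfg k r.1) _)
      · apply sup_le
        · rw [Subgroup.closure_le]
          rintro _ rfl
          simp only [SetLike.mem_coe, MulAction.mem_stabilizer_iff, mul_smul]
          rw [hγ, hxr, ← hγ r', inv_smul_smul]
        · rintro _ ⟨z, hz, rfl⟩
          have hz2 : z • r.1 = r.1 := hz.2
          simp only [MulEquiv.toMonoidHom_eq_coe, MonoidHom.coe_coe, MulAut.conj_apply, inv_inv,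
            MulAction.mem_stabilizer_iff, mul_smul]
          rw [hγ, hz2, ← hγ r, inv_smul_smul]
      · intro y hy hyr
        have e : (γ r')⁻¹ * y * γ r = ((γ r')⁻¹ * x * γ r) * ((γ r)⁻¹ * (x⁻¹ * y) * γ r) := by
          group
        rw [e]
        refine Subgroup.mul_mem_sup (Subgroup.subset_closure rfl) ⟨x⁻¹ * y, ⟨?_, ?_⟩, by simp⟩
        · exact (H k).mul_mem ((H k).inv_mem hx) hy
        · change (x⁻¹ * y) • r.1 = r.1
          rw [mul_smul, hyr, ← hxr, inv_smul_smul]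
    · exact ⟨⊥, Subgroup.FG.bot, bot_le, fun y hy hyr => absurd ⟨y, hy, hyr⟩ h⟩
  choose L hL1 hL2 hL3 using hL
  let H' : Subgroup G := ⨆ q : κ × R' × R', L q.1 q.2.1 q.2.2
  have hH'fg : H'.FG := Subgroup.FG.iSup _ (fun q => hL1 _ _ _)
  have hH'le : H' ≤ MulAction.stabilizer G o₀ := iSup_le (fun q => hL2 _ _ _)
  have hstar : ∀ k, ∀ y ∈ H k, ∀ r r' : R', y • r.1 = r'.1 → (γ r')⁻¹ * y * γ r ∈ H' :=
    fun k y hy r r' h => (le_iSup (fun q : κ × R' × R' => L q.1 q.2.1 q.2.2) (k, r, r'))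
      (hL3 k r r' y hy h)
  have hZ : ∀ g : G, ∀ h ∈ H₀, ∀ r : R', ∃ h' ∈ H₀, ∃ r' : R',
      (h' * γ r')⁻¹ * (g * (h * γ r)) ∈ H' := by
    apply hgen
    · intro k y hy h hh r
      obtain ⟨h', hh', r', hr', e⟩ := hcov ((y * h) • r.1)
      let r'' : R' := ⟨r', Or.inl hr', h'⁻¹ * y * h * γ r, by
        rw [mul_smul, hγ, mul_assoc, mul_smul, ← e, inv_smul_smul]⟩
      refine ⟨h', hh', r'', ?_⟩
      have := hstar k (h'⁻¹ * (y * h))
        ((H k).mul_mem ((H k).inv_mem (hle k hh')) ((H k).mul_mem hy (hle k hh))) r r''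
        (by rw [mul_smul, ← e, inv_smul_smul])
      convert this using 1
      group
    · intro x y hx hy h hh r
      obtain ⟨h1, hh1, r1, e1⟩ := hy h hh r
      obtain ⟨h2, hh2, r2, e2⟩ := hx h1 hh1 r1
      refine ⟨h2, hh2, r2, ?_⟩
      convert H'.mul_mem e2 e1 using 1
      group
  have : MulAction.stabilizer G o₀ = H' := by
    refine le_antisymm (fun η hη => ?_) hH'le
    let r₀ : R' := ⟨o₀, Or.inr rfl, 1, one_smul _ _⟩
    have hγ0 : γ r₀ = 1 := hγ1 r₀ rfl
    obtain ⟨h', hh', r', e⟩ := hZ η 1 H₀.one_mem r₀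
    rw [hγ0, mul_one, mul_one] at e
    have e1 : ((h' * γ r')⁻¹ * η) • o₀ = o₀ := hH'le e
    have e2 : η • o₀ = o₀ := hη
    rw [mul_smul, e2, inv_smul_eq_iff, mul_smul, hγ] at e1
    obtain ⟨k⟩ := ‹Nonempty κ›
    have e3 := hstar k h' (hle k hh') r' r₀ e1.symm
    rw [hγ0, inv_one, one_mul] at e3
    convert H'.mul_mem e3 e using 1
    group
  rw [this]
  exact hH'fg

section Push

variable {V : Type} [Group V]

/-- paths in the Cayley graph staying in a band -/
def Conn (X : Set V) (c : V → ℤ) (a b : ℤ) : V → V → Prop :=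
  Relation.ReflTransGen (fun g h => g⁻¹ * h ∈ X ∧ a ≤ c g ∧ c g ≤ b ∧ a ≤ c h ∧ c h ≤ b)

lemma Conn.mono {X : Set V} {c : V → ℤ} {a b a' b' : ℤ} (ha : a' ≤ a) (hb : b ≤ b') {g h : V}
    (H : Conn X c a b g h) : Conn X c a' b' g h := by
  induction H with
  | refl => exact Relation.ReflTransGen.refl
  | tail _ h ih => exact Relation.ReflTransGen.tail ih ⟨h.1, by have := h.2; omega⟩

lemma Conn.edge {X : Set V} {c : V → ℤ} {a b : ℤ} {g h : V} (h1 : g⁻¹ * h ∈ X)
    (h2 : a ≤ c g ∧ c g ≤ b ∧ a ≤ c h ∧ c h ≤ b) : Conn X c a b g h :=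
  Relation.ReflTransGen.single ⟨h1, h2⟩

theorem fg_ker_of_push (χ : V →* Multiplicative ℤ) (c : V → ℤ) (hc : ∀ g, c g = (χ g).toAdd)
    (X : Set V) (hX : X.Finite) (hgen : Submonoid.closure X = ⊤) (t : V) (ht : t ∈ X)
    (ht' : t⁻¹ ∈ X) (R : ℤ) (hR : 0 ≤ R) (hD : R < c t)
    (hm : ∀ x ∈ X, ∀ g, Conn X c (min (c g) (c (g * x)) - c t - R)
      (max (c g) (c (g * x)) - c t + R) (g * t⁻¹) (g * x * t⁻¹))
    (hp : ∀ x ∈ X, ∀ g, Conn X c (min (c g) (c (g * x)) + c t - R)
      (max (c g) (c (g * x)) + c t + R) (g * t) (g * x * t)) : χ.ker.FG := by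
  classical
  have cmul : ∀ g h, c (g * h) = c g + c h := by intro g h; simp [hc]
  have cinv : ∀ g, c g⁻¹ = - c g := by intro g; simp [hc]
  have cone : c 1 = 0 := by simp [hc]
  obtain ⟨r, hr⟩ : ∃ r : ℤ, ∀ x ∈ X, |c x| ≤ r := by
    obtain ⟨r, hr⟩ := (hX.image (fun x => |c x|)).bddAbove
    exact ⟨r, fun x hx => hr ⟨x, hx, rfl⟩⟩
  have hr0 : 0 ≤ r := (abs_nonneg _).trans (hr t ht)
  set L : ℤ := r + c t + R with hL
  let f : V → V := fun g => if L < c g then g * t⁻¹ else if c g < -L then g * t else g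
  have push : ∀ j : ℤ, 1 ≤ j → ∀ g h, Conn X c (-L - j) (L + j) g h →
      Conn X c (-L - (j - 1)) (L + (j - 1)) (f g) (f h) := by
    intro j hj g h H
    induction H with
    | refl => exact Relation.ReflTransGen.refl
    | @tail g h _ hgh ih =>
    refine Relation.ReflTransGen.trans ih ?_
    clear ih
    obtain ⟨hx, h1, h2, h3, h4⟩ := hgh
    obtain ⟨x, rfl⟩ : ∃ x, h = g * x := ⟨g⁻¹ * h, by group⟩
    have hx' : x ∈ X := by simpa using hx
    have hrx := abs_le.mp (hr x hx')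
    have e1 := cmul g x
    have e2 := cmul g t
    have e3 := cmul (g * x) t
    have e4 := cmul g t⁻¹
    have e5 := cmul (g * x) t⁻¹
    have e6 := cinv t
    have m := hm x hx' g
    have p := hp x hx' g
    change Conn X c _ _ (f g) (f (g * x))
    simp only [f]
    split_ifs with a1 a2 a3 a4 a5 a6 a7 a8
    · exact m.mono (by omega) (by omega)
    · omega
    · exact (m.mono (by omega) (by omega)).trans (Conn.edge (by simpa [mul_assoc] using ht) (by omega))
    · omega
    · exact p.mono (by omega) (by omega)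
    · exact (p.mono (by omega) (by omega)).trans
        (Conn.edge (by simpa [mul_assoc] using ht') (by omega))
    · exact (Conn.edge (by simpa using ht') (by omega)).trans (m.mono (by omega) (by omega))
    · exact (Conn.edge (by simpa using ht) (by omega)).trans (p.mono (by omega) (by omega))
    · exact Conn.edge hx (by omega)
  have hall : ∀ g, ∃ j : ℕ, Conn X c (-L - j) (L + j) 1 g := by
    intro g
    have hg : g ∈ Submonoid.closure X := by rw [hgen]; trivial
    induction hg using Submonoid.closure_induction_right with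
    | one => exact ⟨0, Relation.ReflTransGen.refl⟩
    | mul_right g _ x hx ih =>
      obtain ⟨j, hj⟩ := ih
      refine ⟨j + (c g).natAbs + (c (g * x)).natAbs, ?_⟩
      exact (hj.mono (by omega) (by omega)).trans (Conn.edge (by simpa using hx) (by omega))
  have hband : ∀ g, -L ≤ c g → c g ≤ L → Conn X c (-L) L 1 g := by
    intro g h1 h2
    obtain ⟨j, hj⟩ := hall g
    induction j with
    | zero => simpa using hj
    | succ j ih =>
      apply ih
      have := push _ (by omega) _ _ hj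
      have f1 : f 1 = 1 := by simp only [f]; rw [if_neg (by omega), if_neg (by omega)]
      have fg : f g = g := by simp only [f]; rw [if_neg (by omega), if_neg (by omega)]
      rw [f1, fg] at this
      exact this.mono (by omega) (by omega)
  have hrep : ∀ n : ℤ, ∃ ρ : V, (∀ g, c g = n → c ρ = n) ∧ (n = 0 → ρ = 1) := by
    intro n
    by_cases h0 : n = 0
    · exact ⟨1, fun _ _ => by omega, fun _ => rfl⟩
    by_cases h : ∃ g, c g = n
    · obtain ⟨g, hg⟩ := h
      exact ⟨g, fun _ _ => hg, fun h => absurd h h0⟩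
    · exact ⟨1, fun g hg => absurd ⟨g, hg⟩ h, fun _ => rfl⟩
  choose ρ hρ hρ0 using hrep
  let Y : Set V := {y | y ∈ χ.ker ∧ ∃ n ∈ Set.Icc (-L) L, ∃ x ∈ X, y = ρ n * x * (ρ (n + c x))⁻¹}
  have hY : Y.Finite := by
    refine (((Set.finite_Icc (-L) L).prod hX).image
      (fun q => ρ q.1 * q.2 * (ρ (q.1 + c q.2))⁻¹)).subset ?_
    rintro y ⟨-, n, hn, x, hx, rfl⟩
    exact ⟨(n, x), ⟨hn, hx⟩, rfl⟩
  have hker : ∀ g, g ∈ χ.ker ↔ c g = 0 := by
    intro g
    rw [MonoidHom.mem_ker, hc]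
    exact Iff.rfl
  refine (Subgroup.fg_iff _).mpr ⟨Y, le_antisymm ?_ ?_, hY⟩
  · rw [Subgroup.closure_le]
    exact fun y hy => hy.1
  · have key : ∀ g, Conn X c (-L) L 1 g → g * (ρ (c g))⁻¹ ∈ Subgroup.closure Y := by
      intro g hg
      induction hg with
      | refl => rw [cone, hρ0 0 rfl]; simp
      | @tail g h _ hgh ih =>
        obtain ⟨hx, h1, h2, h3, h4⟩ := hgh
        obtain ⟨x, rfl⟩ : ∃ x, h = g * x := ⟨g⁻¹ * h, by group⟩
        have hx' : x ∈ X := by simpa using hx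
        have hy : ρ (c g) * x * (ρ (c g + c x))⁻¹ ∈ Y := by
          refine ⟨?_, c g, ⟨h1, h2⟩, x, hx', rfl⟩
          rw [hker, cmul, cmul, cinv, hρ _ g rfl, hρ _ (g * x) (cmul g x)]
          omega
        convert (Subgroup.closure Y).mul_mem ih (Subgroup.subset_closure hy) using 1
        rw [cmul]
        group
    intro g hg
    have h0 := (hker g).mp hg
    have := key g (hband g (by omega) (by omega))
    rwa [h0, hρ0 0 rfl, inv_one, mul_one] at this

/-- Openness of fibrations: a small perturbation of a fibration is a fibration. -/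
theorem fg_ker_perturb (φ ψ : V →* Multiplicative ℤ) (hφ : φ ≠ 1) (hfg : φ.ker.FG) :
    ∃ N₀ : ℕ, ∀ N : ℕ, N₀ ≤ N → (φ ^ N * ψ).ker.FG := by
  classical
  obtain ⟨S, hS, hSf⟩ := (Subgroup.fg_iff _).mp hfg
  -- an element whose image generates the image of `φ`
  obtain ⟨t, ht, hgen⟩ : ∃ t : V, 0 < (φ t).toAdd ∧ ∀ g, ∃ k : ℤ, g * t ^ k ∈ φ.ker := by
    obtain ⟨d, hd⟩ := Int.subgroup_cyclic (φ.range.toAddSubgroup')
    have hd' : ∀ n : ℤ, Multiplicative.ofAdd n ∈ φ.range ↔ d ∣ n := by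
      intro n
      have : n ∈ φ.range.toAddSubgroup' ↔ d ∣ n := by
        rw [hd, ← AddSubgroup.zmultiples_eq_closure, Int.mem_zmultiples_iff]
      exact this
    have hd0 : d ≠ 0 := by
      rintro rfl
      apply hφ
      ext g
      have := (hd' (φ g).toAdd).mp ⟨g, rfl⟩
      simpa using this
    obtain ⟨t, ht⟩ := (hd' |d|).mpr (by simp)
    refine ⟨t, by rw [ht]; simpa using hd0, fun g => ?_⟩
    obtain ⟨k, hk⟩ := (abs_dvd _ _).mpr ((hd' (φ g).toAdd).mp ⟨g, rfl⟩)
    refine ⟨-k, ?_⟩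
    rw [MonoidHom.mem_ker, map_mul, map_zpow, ht]
    apply Multiplicative.toAdd.injective
    simp [hk, mul_comm]
  let X : Set V := S ∪ S⁻¹ ∪ {t, t⁻¹}
  have hXf : X.Finite := (hSf.union hSf.inv).union (Set.toFinite _)
  have hK : ∀ k ∈ φ.ker, k ∈ Submonoid.closure (S ∪ S⁻¹) := by
    intro k hk
    rw [← hS] at hk
    rw [← Subgroup.closure_toSubmonoid]
    exact hk
  have hSK : ∀ s ∈ S ∪ S⁻¹, s ∈ φ.ker := by
    rintro s (h | h)
    · rw [← hS]; exact Subgroup.subset_closure h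
    · rw [← hS, ← inv_mem_iff]; exact Subgroup.subset_closure h
  have hXgen : Submonoid.closure X = ⊤ := by
    rw [eq_top_iff]
    intro g _
    obtain ⟨k, hk⟩ := hgen g
    have h1 : g * t ^ k ∈ Submonoid.closure X :=
      Submonoid.closure_mono Set.subset_union_left (hK _ hk)
    have h2 : t ^ (-k) ∈ Submonoid.closure X := by
      refine Submonoid.closure_mono Set.subset_union_right ?_
      have : ({t, t⁻¹} : Set V) = {t} ∪ {t}⁻¹ := by
        ext y; simp [or_comm]
      rw [this, ← Subgroup.closure_toSubmonoid]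
      exact (Subgroup.closure {t}).zpow_mem (Subgroup.subset_closure (Set.mem_singleton t)) (-k)
    have h3 : g = g * t ^ k * t ^ (-k) := by group
    rw [h3]
    exact (Submonoid.closure X).mul_mem h1 h2
  -- cost of an element of the kernel, uniformly in the character
  have hcost : ∀ k ∈ φ.ker, ∃ R : ℕ, ∀ c : V → ℤ, (∀ g h, c (g * h) = c g + c h) →
      (∀ s ∈ φ.ker, c s = (ψ s).toAdd) → ∀ g, Conn X c (c g - R) (c g + R) g (g * k) ∧
        |c k| ≤ R := by
    intro k hk
    have hk' := hK k hk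
    clear hk
    induction hk' using Submonoid.closure_induction_right with
    | one =>
      refine ⟨0, fun c h1 _ g => ⟨by rw [mul_one]; exact Relation.ReflTransGen.refl, ?_⟩⟩
      have := h1 1 1
      rw [mul_one] at this
      simp; omega
    | mul_right k _ s hs ih =>
      obtain ⟨R, hR⟩ := ih
      refine ⟨R + (ψ s).toAdd.natAbs, fun c h1 h2 g => ?_⟩
      obtain ⟨a1, a2⟩ := hR c h1 h2 g
      have a3 := h2 s (hSK s hs)
      have a4 := h1 g k
      have a5 := h1 (g * k) s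
      have a6 := h1 k s
      rw [abs_le] at a2 ⊢
      refine ⟨?_, by omega⟩
      rw [← mul_assoc]
      exact (a1.mono (by omega) (by omega)).trans
        (Conn.edge (by rw [inv_mul_cancel_left]; exact Or.inl hs) (by omega))
  have hconj : ∀ s ∈ S ∪ S⁻¹, ∀ u : V, u * s * u⁻¹ ∈ φ.ker := fun s hs u =>
    (MonoidHom.normal_ker φ).conj_mem _ (hSK s hs) u
  choose! Rf hRf using hcost
  obtain ⟨R, hR⟩ : ∃ R : ℕ, ∀ s ∈ S ∪ S⁻¹, Rf (t * s * t⁻¹) ≤ R ∧ Rf (t⁻¹ * s * t⁻¹⁻¹) ≤ R := by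
    obtain ⟨R, hR⟩ := ((hSf.union hSf.inv).image
      (fun s => Rf (t * s * t⁻¹) + Rf (t⁻¹ * s * t⁻¹⁻¹))).bddAbove
    refine ⟨R, fun s hs => ?_⟩
    have := hR ⟨s, hs, rfl⟩
    simp only at this
    omega
  refine ⟨R + (ψ t).toAdd.natAbs + 1, fun N hN => ?_⟩
  let c : V → ℤ := fun g => ((φ ^ N * ψ) g).toAdd
  have cmul : ∀ g h, c (g * h) = c g + c h := by intro g h; simp only [c, map_mul, toAdd_mul]
  have cinv : ∀ g, c g⁻¹ = - c g := by intro g; simp only [c, map_inv, toAdd_inv]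
  have cker : ∀ s ∈ φ.ker, c s = (ψ s).toAdd := by
    intro s hs
    simp [c, MonoidHom.mem_ker.mp hs]
  have ct : (R : ℤ) < c t := by
    have : c t = N * (φ t).toAdd + (ψ t).toAdd := by simp [c]
    have h2 : (N : ℤ) ≤ N * (φ t).toAdd := le_mul_of_one_le_right (by omega) (by omega)
    omega
  refine fg_ker_of_push (φ ^ N * ψ) c (fun _ => rfl) X hXf hXgen t (by simp [X]) (by simp [X])
    R (by omega) ct ?_ ?_
  · intro x hx g
    have e4 := cmul g t⁻¹
    have e5 := cmul (g * x) t⁻¹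
    have e6 := cinv t
    rcases hx with hx | hx
    · have h1 := (hRf _ (hconj x hx t) c cmul cker (g * t⁻¹)).1
      have e : g * t⁻¹ * (t * x * t⁻¹) = g * x * t⁻¹ := by group
      rw [e] at h1
      have := (hR x hx).1
      exact h1.mono (by omega) (by omega)
    · refine Conn.edge ?_ (by omega)
      rcases hx with rfl | rfl
      · simp [X]
      · simp [X, mul_assoc]
  · intro x hx g
    have e4 := cmul g t
    have e5 := cmul (g * x) t
    rcases hx with hx | hx
    · have h1 := (hRf _ (hconj x hx t⁻¹) c cmul cker (g * t)).1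
      have e : g * t * (t⁻¹ * x * t⁻¹⁻¹) = g * x * t := by group
      rw [e] at h1
      have := (hR x hx).2
      exact h1.mono (by omega) (by omega)
    · refine Conn.edge ?_ (by omega)
      rcases hx with rfl | rfl
      · simp [X, mul_assoc]
      · simp [X]

end Push

end Pool.Agent.Lib.Amalgam
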